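import Mathlib

/-!
# The maximum double coalition number for given minimum and maximum degree

For all `1 ≤ δ ≤ Δ` the largest double coalition number of a graph with minimum degree `δ` and
maximum degree `Δ` is `p (Δ + 3 - 2 p)` with `p = min ⌈δ/2⌉ ⌊(Δ+4)/4⌋`.
-/

set_option autoImplicit false

namespace Pool.Agent.Results.MP_00dc5c_co.ExactValue

open Finset
open scoped Classical

/-- The closed neighbourhood `N[v]`. -/
noncomputable def closedNbhd {V : Type} [Fintype V] (G : SimpleGraph V) (v : V) : Finset V :=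
  univ.filter (fun u => u = v ∨ G.Adj v u)

/-- `S` is double dominating: every closed neighbourhood has at least two vertices in `S`. -/
def DoubleDominating {V : Type} [Fintype V] (G : SimpleGraph V) (S : Finset V) : Prop :=
  ∀ v : V, 2 ≤ (closedNbhd G v ∩ S).card

/-- `A` and `B` form a double coalition. -/
def DoubleCoalition {V : Type} [Fintype V] (G : SimpleGraph V) (A B : Finset V) : Prop :=
  Disjoint A B ∧ ¬ DoubleDominating G A ∧ ¬ DoubleDominating G B ∧ DoubleDominating G (A ∪ B)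

/-- The partition `P` of the vertex set is a double coalition partition: every member forms a
double coalition with some other member. -/
def IsDCPartition {V : Type} [Fintype V] (G : SimpleGraph V)
    (P : Finpartition (univ : Finset V)) : Prop :=
  ∀ A ∈ P.parts, ∃ B ∈ P.parts, B ≠ A ∧ DoubleCoalition G A B

/-- The double coalition number: the largest number of members of a double coalition partition. -/
noncomputable def DC {V : Type} [Fintype V] (G : SimpleGraph V) : ℕ :=
  sSup {k : ℕ | ∃ P : Finpartition (univ : Finset V), IsDCPartition G P ∧ P.parts.card = k}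

/-- The double coalition numbers of the finite graphs with minimum degree `δ` and maximum
degree `Δ`. -/
def dcValues (δ Δ : ℕ) : Set ℕ :=
  {k | ∃ (V : Type) (_ : Fintype V) (G : SimpleGraph V),
    G.minDegree = δ ∧ G.maxDegree = Δ ∧ DC G = k}

section Star

variable {α : Type} [DecidableEq α]

/-- A finite set with a symmetric irreflexive relation without isolated points splits into stars. -/
lemma star_forest (T : Finset α) (R : α → α → Prop) (hsymm : ∀ a b, R a b → R b a)
    (hirr : ∀ a, ¬ R a a) (hne : ∀ a ∈ T, ∃ b ∈ T, R a b) :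
    ∃ (C : Finset α) (π : α → α), C ⊆ T ∧ (∀ a ∈ T \ C, π a ∈ C ∧ R a (π a)) ∧
      (∀ b ∈ C, ∃ a ∈ T \ C, π a = b) := by
  let F : Finset (Finset (α × α)) := (T ×ˢ T).powerset.filter
    (fun S => (∀ e ∈ S, R e.1 e.2) ∧ ∀ x ∈ T, ∃ e ∈ S, e.1 = x ∨ e.2 = x)
  have hF : F.Nonempty := by
    refine ⟨(T ×ˢ T).filter (fun e => R e.1 e.2), ?_⟩
    simp only [F, mem_filter, mem_powerset]
    refine ⟨filter_subset _ _, fun e he => ?_, fun x hx => ?_⟩
    · exact he.2
    obtain ⟨y, hy, hxy⟩ := hne x hx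
    exact ⟨(x, y), ⟨mem_product.2 ⟨hx, hy⟩, hxy⟩, Or.inl rfl⟩
  obtain ⟨S, hS, hmin⟩ := exists_min_image F card hF
  simp only [F, mem_filter, mem_powerset] at hS
  obtain ⟨hST, hSR, hScov⟩ := hS
  -- every pair of `S` has an endpoint covered by this pair only
  have key : ∀ e ∈ S, ∃ x ∈ T, (e.1 = x ∨ e.2 = x) ∧ ∀ e' ∈ S, (e'.1 = x ∨ e'.2 = x) → e' = e := by
    intro e he
    by_contra hcon
    push Not at hcon
    have hmem : S.erase e ∈ F := by
      simp only [F, mem_filter, mem_powerset]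
      refine ⟨(erase_subset _ _).trans hST, fun e' he' => hSR e' (mem_of_mem_erase he'), ?_⟩
      intro x hx
      obtain ⟨e1, he1, h1⟩ := hScov x hx
      by_cases h : e1 = e
      · subst h
        obtain ⟨e2, he2, h2, h3⟩ := hcon x hx h1
        exact ⟨e2, mem_erase.2 ⟨h3, he2⟩, h2⟩
      · exact ⟨e1, mem_erase.2 ⟨h, he1⟩, h1⟩
    have h1 := hmin _ hmem
    have h2 := card_erase_lt_of_mem he
    omega
  have key' : ∀ e : α × α, ∃ x : α, e ∈ S → (x ∈ T ∧ (e.1 = x ∨ e.2 = x) ∧
      ∀ e' ∈ S, (e'.1 = x ∨ e'.2 = x) → e' = e) := by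
    intro e
    by_cases he : e ∈ S
    · obtain ⟨x, h1, h2⟩ := key e he
      exact ⟨x, fun _ => ⟨h1, h2⟩⟩
    · exact ⟨e.1, fun h => absurd h he⟩
  choose l hl using key'
  have hlT : ∀ e ∈ S, l e ∈ T := fun e he => (hl e he).1
  have hle : ∀ e ∈ S, e.1 = l e ∨ e.2 = l e := fun e he => (hl e he).2.1
  have hlu : ∀ e ∈ S, ∀ e' ∈ S, (e'.1 = l e ∨ e'.2 = l e) → e' = e :=
    fun e he => (hl e he).2.2
  let o : α × α → α := fun e => if e.1 = l e then e.2 else e.1
  have hne' : ∀ e ∈ S, e.1 ≠ e.2 := by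
    intro e he h
    have := hSR e he
    rw [h] at this
    exact hirr _ this
  have ho1 : ∀ e ∈ S, o e ≠ l e := by
    intro e he
    simp only [o]
    split_ifs with h
    · rw [← h]; exact (hne' e he).symm
    · exact h
  have ho2 : ∀ e ∈ S, e.1 = o e ∨ e.2 = o e := by
    intro e he
    simp only [o]
    split_ifs with h
    · exact Or.inr rfl
    · exact Or.inl rfl
  have ho3 : ∀ e ∈ S, R (l e) (o e) := by
    intro e he
    simp only [o]
    split_ifs with h
    · rw [← h]; exact hSR e he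
    · rcases hle e he with h1 | h1
      · exact absurd h1 h
      · rw [← h1]; exact hsymm _ _ (hSR e he)
  have ho4 : ∀ e ∈ S, o e ∈ T := by
    intro e he
    have := mem_product.1 (hST he)
    rcases ho2 e he with h | h
    · rw [← h]; exact this.1
    · rw [← h]; exact this.2
  have ho5 : ∀ e ∈ S, ∀ e' ∈ S, o e ≠ l e' := by
    intro e he e' he' h
    have h1 : e = e' := hlu e' he' e he (by rw [← h]; exact ho2 e he)
    subst h1
    exact ho1 e he h
  let π : α → α := fun a => if h : ∃ e ∈ S, l e = a then o h.choose else a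
  have hπ : ∀ e ∈ S, π (l e) = o e := by
    intro e he
    have hex : ∃ e' ∈ S, l e' = l e := ⟨e, he, rfl⟩
    have h1 : π (l e) = o hex.choose := by
      simp only [π]
      rw [dif_pos hex]
    have h2 := hex.choose_spec
    have h3 : hex.choose = e := by
      refine hlu e he _ h2.1 ?_
      have h5 := hle _ h2.1
      rw [h2.2] at h5
      exact h5
    rw [h1, h3]
  refine ⟨T \ S.image l, π, sdiff_subset, ?_, ?_⟩
  · intro a ha
    have ha' : a ∈ T ∧ a ∈ S.image l := by
      rw [mem_sdiff, mem_sdiff] at ha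
      refine ⟨ha.1, ?_⟩
      by_contra h
      exact ha.2 ⟨ha.1, h⟩
    obtain ⟨e, he, rfl⟩ := mem_image.1 ha'.2
    rw [hπ e he]
    refine ⟨mem_sdiff.2 ⟨ho4 e he, ?_⟩, ho3 e he⟩
    intro h
    obtain ⟨e', he', h'⟩ := mem_image.1 h
    exact ho5 e he e' he' h'.symm
  · intro b hb
    rw [mem_sdiff] at hb
    obtain ⟨e, he, h⟩ := hScov b hb.1
    have hbl : b ≠ l e := by
      intro h'
      exact hb.2 (mem_image.2 ⟨e, he, h'.symm⟩)
    have hbo : o e = b := by
      simp only [o]
      rcases hle e he with h1 | h1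
      · rw [if_pos h1]
        rcases h with h2 | h2
        · exact absurd (h2.symm.trans h1) hbl
        · exact h2
      · have h3 : e.1 ≠ l e := by
          intro h3
          exact hne' e he (h3.trans h1.symm)
        rw [if_neg h3]
        rcases h with h2 | h2
        · exact h2
        · exact absurd (h2.symm.trans h1) hbl
    refine ⟨l e, ?_, ?_⟩
    · rw [mem_sdiff, mem_sdiff]
      refine ⟨hlT e he, ?_⟩
      rintro ⟨_, h4⟩
      exact h4 (mem_image.2 ⟨e, he, rfl⟩)
    · rw [hπ e he, hbo]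

/-- Sums over a set that is split into stars. -/
lemma star_sum (T C : Finset α) (π : α → α) (hC : C ⊆ T) (h1 : ∀ a ∈ T \ C, π a ∈ C)
    (f : α → ℕ) :
    ∑ a ∈ T, f a = ∑ b ∈ C, (f b + ∑ a ∈ (T \ C).filter (fun a => π a = b), f a) := by
  rw [sum_add_distrib, sum_fiberwise_of_maps_to h1, add_comm, sum_sdiff hC]

end Star

section Upper

variable {V : Type} [Fintype V] (G : SimpleGraph V)

lemma closedNbhd_card (v : V) : (closedNbhd G v).card = G.degree v + 1 := by
  have h : closedNbhd G v = insert v (G.neighborFinset v) := by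
    ext u
    simp [closedNbhd]
  rw [h, card_insert_of_notMem (by simp)]
  rfl

lemma two_le_iff (v : V) (S : Finset V) : 2 ≤ (closedNbhd G v ∩ S).card ↔
    ∃ a b, a ≠ b ∧ (a = v ∨ G.Adj v a) ∧ (b = v ∨ G.Adj v b) ∧ a ∈ S ∧ b ∈ S := by
  constructor
  · intro h
    obtain ⟨a, ha, b, hb, hab⟩ := one_lt_card.1 h
    simp only [closedNbhd, mem_inter, mem_filter, mem_univ, true_and] at ha hb
    exact ⟨a, b, hab, ha.1, hb.1, ha.2, hb.2⟩
  · rintro ⟨a, b, hab, ha, hb, ha', hb'⟩
    refine one_lt_card.2 ⟨a, ?_, b, ?_, hab⟩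
    · simp only [closedNbhd, mem_inter, mem_filter, mem_univ, true_and]
      exact ⟨ha, ha'⟩
    · simp only [closedNbhd, mem_inter, mem_filter, mem_univ, true_and]
      exact ⟨hb, hb'⟩

/-- The upper bound. -/
lemma upper [Nonempty V] (P : Finpartition (univ : Finset V)) (hP : IsDCPartition G P) :
    ∃ p : ℕ, 1 ≤ p ∧ 2 * p ≤ G.minDegree + 1 ∧ P.parts.card ≤ p * (G.maxDegree + 3 - 2 * p) := by
  obtain ⟨C, π, hCT, hπ, hsurj⟩ := star_forest P.parts (DoubleCoalition G)
    (fun a b h => ⟨h.1.symm, h.2.2.1, h.2.1, by rw [union_comm]; exact h.2.2.2⟩)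
    (fun a h => h.2.1 (by have := h.2.2.2; rwa [union_self] at this))
    (fun a ha => by
      obtain ⟨b, hb, _, h⟩ := hP a ha
      exact ⟨b, hb, h⟩)
  set T := P.parts with hT
  let Lf : Finset V → Finset (Finset V) := fun b => (T \ C).filter (fun a => π a = b)
  have hmaps : ∀ a ∈ T \ C, π a ∈ C := fun a ha => (hπ a ha).1
  -- every vertex has total weight at most its closed neighbourhood
  have htot : ∀ v, ∑ A ∈ T, (closedNbhd G v ∩ A).card ≤ (closedNbhd G v).card := by
    intro v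
    rw [← card_biUnion]
    · apply card_le_card
      intro x hx
      rw [mem_biUnion] at hx
      obtain ⟨A, _, hA⟩ := hx
      exact (mem_inter.1 hA).1
    · intro A hA B hB hAB
      exact (P.disjoint hA hB hAB).mono inter_subset_right inter_subset_right
  have hLne : ∀ b ∈ C, ∃ a, a ∈ Lf b := by
    intro b hb
    obtain ⟨a, ha, hab⟩ := hsurj b hb
    exact ⟨a, mem_filter.2 ⟨ha, hab⟩⟩
  have hpair : ∀ v, ∀ b, ∀ a ∈ Lf b, 2 ≤ (closedNbhd G v ∩ b).card + (closedNbhd G v ∩ a).card := by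
    intro v b a ha
    have ha' := mem_filter.1 ha
    have h1 := (hπ a ha'.1).2.2.2.2 v
    rw [ha'.2, inter_union_distrib_left] at h1
    have h2 := card_union_le (closedNbhd G v ∩ a) (closedNbhd G v ∩ b)
    omega
  have hst2 : ∀ v, ∀ b ∈ C, 2 ≤ (closedNbhd G v ∩ b).card +
      ∑ a ∈ Lf b, (closedNbhd G v ∩ a).card := by
    intro v b hb
    obtain ⟨a, ha⟩ := hLne b hb
    have h1 := hpair v b a ha
    have h2 : (closedNbhd G v ∩ a).card ≤ ∑ a ∈ Lf b, (closedNbhd G v ∩ a).card :=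
      single_le_sum (f := fun a => (closedNbhd G v ∩ a).card) (fun _ _ => Nat.zero_le _) ha
    omega
  have hst1 : ∀ v, ∀ b ∈ C, (closedNbhd G v ∩ b).card ≤ 1 →
      (Lf b).card + 1 ≤ (closedNbhd G v ∩ b).card + ∑ a ∈ Lf b, (closedNbhd G v ∩ a).card := by
    intro v b hb h1
    obtain ⟨a0, ha0⟩ := hLne b hb
    have hpos : 1 ≤ (Lf b).card := card_pos.2 ⟨a0, ha0⟩
    have h2 : (Lf b).card * (2 - (closedNbhd G v ∩ b).card) ≤
        ∑ a ∈ Lf b, (closedNbhd G v ∩ a).card := by
      have := card_nsmul_le_sum (Lf b) (fun a => (closedNbhd G v ∩ a).card)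
        (2 - (closedNbhd G v ∩ b).card) (fun a ha => by
          have := hpair v b a ha
          show 2 - (closedNbhd G v ∩ b).card ≤ (closedNbhd G v ∩ a).card
          omega)
      simpa using this
    interval_cases h : (closedNbhd G v ∩ b).card
    · omega
    · omega
  have hdeg : ∀ v, ∑ b ∈ C, ((closedNbhd G v ∩ b).card +
      ∑ a ∈ Lf b, (closedNbhd G v ∩ a).card) ≤ G.degree v + 1 := by
    intro v
    have := htot v
    rw [star_sum T C π hCT hmaps, closedNbhd_card] at this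
    exact this
  refine ⟨C.card, ?_, ?_, ?_⟩
  · -- there is a centre
    obtain ⟨x⟩ := ‹Nonempty V›
    obtain ⟨A, hA, _⟩ := P.exists_mem (mem_univ x)
    by_cases h : A ∈ C
    · exact card_pos.2 ⟨A, h⟩
    · exact card_pos.2 ⟨_, hmaps A (mem_sdiff.2 ⟨hA, h⟩)⟩
  · obtain ⟨v, hv⟩ := G.exists_minimal_degree_vertex
    have h1 := hdeg v
    have h2 : C.card * 2 ≤ ∑ b ∈ C, ((closedNbhd G v ∩ b).card +
        ∑ a ∈ Lf b, (closedNbhd G v ∩ a).card) := by
      have := card_nsmul_le_sum C (fun b => (closedNbhd G v ∩ b).card +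
        ∑ a ∈ Lf b, (closedNbhd G v ∩ a).card) 2 (fun b hb => hst2 v b hb)
      simpa using this
    rw [hv]
    omega
  · have h0 : T.card = ∑ b ∈ C, (1 + (Lf b).card) := by
      have := star_sum T C π hCT hmaps (fun _ => 1)
      simpa using this
    rw [h0]
    have h3 : ∀ b ∈ C, 1 + (Lf b).card ≤ G.maxDegree + 3 - 2 * C.card := by
      intro b hb
      have hb' : ¬ DoubleDominating G b := by
        obtain ⟨b', _, _, h⟩ := hP b (hCT hb)
        exact h.2.1
      simp only [DoubleDominating, not_forall, not_le] at hb'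
      obtain ⟨w, hw⟩ := hb'
      have h4 := hdeg w
      rw [← add_sum_erase C _ hb] at h4
      have h5 := hst1 w b hb (by omega)
      have h6 : (C.erase b).card * 2 ≤ ∑ b ∈ C.erase b, ((closedNbhd G w ∩ b).card +
          ∑ a ∈ Lf b, (closedNbhd G w ∩ a).card) := by
        have := card_nsmul_le_sum (C.erase b) (fun b => (closedNbhd G w ∩ b).card +
          ∑ a ∈ Lf b, (closedNbhd G w ∩ a).card) 2 (fun b hb => hst2 w b (mem_of_mem_erase hb))
        simpa using this
      rw [card_erase_of_mem hb] at h6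
      have h7 : 1 ≤ C.card := card_pos.2 ⟨b, hb⟩
      have h8 := G.degree_le_maxDegree w
      omega
    have := sum_le_card_nsmul C (fun b => 1 + (Lf b).card) _ h3
    simpa using this

end Upper

section Arith

/-- The number of stars in the extremal configuration. -/
def pstar (δ Δ : ℕ) : ℕ := min ((δ + 1) / 2) ((Δ + 4) / 4)

lemma arith (δ Δ p : ℕ) (h2 : δ ≤ Δ) (hp : 1 ≤ p) (hp2 : 2 * p ≤ δ + 1) :
    p * (Δ + 3 - 2 * p) ≤ pstar δ Δ * (Δ + 3 - 2 * pstar δ Δ) := by
  have h3 : pstar δ Δ ≤ (δ + 1) / 2 := min_le_left _ _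
  have h4 : pstar δ Δ ≤ (Δ + 4) / 4 := min_le_right _ _
  have h5 : pstar δ Δ = (δ + 1) / 2 ∨ pstar δ Δ = (Δ + 4) / 4 := by
    rcases min_choice ((δ + 1) / 2) ((Δ + 4) / 4) with h | h
    · exact Or.inl h
    · exact Or.inr h
  generalize pstar δ Δ = q at *
  obtain ⟨x, hx⟩ : ∃ x, Δ + 3 = 2 * p + x := ⟨Δ + 3 - 2 * p, by omega⟩
  obtain ⟨y, hy⟩ : ∃ y, Δ + 3 = 2 * q + y := ⟨Δ + 3 - 2 * q, by omega⟩
  have e1 : Δ + 3 - 2 * p = x := by omega
  have e2 : Δ + 3 - 2 * q = y := by omega
  rw [e1, e2]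
  rcases le_or_gt p q with h | h
  · obtain ⟨z, rfl⟩ := Nat.exists_eq_add_of_le h
    rcases Nat.eq_zero_or_pos z with hz | hz
    · subst hz
      have : x = y := by omega
      rw [this]
      simp
    · have h6 : x = y + 2 * z := by omega
      have h7 : 2 * p ≤ y := by omega
      subst h6
      nlinarith
  · obtain ⟨z, rfl⟩ := Nat.exists_eq_add_of_lt h
    have h6 : y = x + 2 * (z + 1) := by omega
    have h7 : x ≤ 2 * q := by omega
    subst h6
    nlinarith

end Arith

section Lower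

/-- The working description of a graph with an extremal partition: `lam` is the labelling by the
members of the partition, `inl i` the centres and `inr (i, j)` the other members. -/
structure Good {V : Type} [Fintype V] (G : SimpleGraph V) (p L Δ d : ℕ)
    (lam : V → Fin p ⊕ Fin p × Fin L) : Prop where
  le : ∀ v, (closedNbhd G v).card ≤ Δ + 1
  ge : ∀ v, d + 1 ≤ (closedNbhd G v).card
  ex : ∃ v, (closedNbhd G v).card = d + 1
  two : ∀ v i j, ∃ a b, a ≠ b ∧ (a = v ∨ G.Adj v a) ∧ (b = v ∨ G.Adj v b) ∧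
    (lam a = .inl i ∨ lam a = .inr (i, j)) ∧ (lam b = .inl i ∨ lam b = .inr (i, j))
  spec : ∀ i, ∃ w, (closedNbhd G w).card = Δ + 1 ∧ ∀ l, (l = .inl i ∨ ∃ j, l = .inr (i, j)) →
    ∀ a b, (a = w ∨ G.Adj w a) → (b = w ∨ G.Adj w b) → lam a = l → lam b = l → a = b

/-- Two copies of a graph, corresponding vertices of small degree joined. -/
def dbl {V : Type} [Fintype V] (G : SimpleGraph V) (Δ : ℕ) : SimpleGraph (V × Bool) where
  Adj x y := (x.2 = y.2 ∧ G.Adj x.1 y.1) ∨
    (x.2 ≠ y.2 ∧ x.1 = y.1 ∧ (closedNbhd G x.1).card < Δ + 1)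
  symm := ⟨by
    rintro ⟨a, s⟩ ⟨b, t⟩ h
    rcases h with h | h
    · exact Or.inl ⟨h.1.symm, h.2.symm⟩
    · have h2 : a = b := h.2.1
      subst h2
      exact Or.inr ⟨h.1.symm, rfl, h.2.2⟩⟩
  loopless := ⟨by
    rintro ⟨a, s⟩ h
    rcases h with h | h
    · exact G.loopless.irrefl _ h.2
    · exact h.1 rfl⟩

lemma mem_cn {V : Type} [Fintype V] (G : SimpleGraph V) (v u : V) :
    u ∈ closedNbhd G v ↔ (u = v ∨ G.Adj v u) := by
  simp only [closedNbhd, mem_filter, mem_univ, true_and]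

lemma dbl_adj {V : Type} [Fintype V] (G : SimpleGraph V) (Δ : ℕ) (v u : V) (s t : Bool) :
    (dbl G Δ).Adj (v, s) (u, t) ↔ ((s = t ∧ G.Adj v u) ∨
      (s ≠ t ∧ v = u ∧ (closedNbhd G v).card < Δ + 1)) := Iff.rfl

lemma dbl_card {V : Type} [Fintype V] (G : SimpleGraph V) (Δ : ℕ) (v : V) (s : Bool) :
    (closedNbhd (dbl G Δ) (v, s)).card =
      (closedNbhd G v).card + if (closedNbhd G v).card < Δ + 1 then 1 else 0 := by
  let f : V ↪ V × Bool := ⟨fun u => (u, s), fun a b h => (Prod.mk.inj h).1⟩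
  have hf : ∀ u t, (u, t) ∈ (closedNbhd G v).map f ↔ ((u = v ∨ G.Adj v u) ∧ t = s) := by
    intro u t
    rw [mem_map]
    constructor
    · rintro ⟨u', h1, h2⟩
      obtain ⟨h3, h4⟩ := Prod.mk.inj h2
      subst h3
      exact ⟨(mem_cn G v u').1 h1, h4.symm⟩
    · rintro ⟨h1, h2⟩
      subst h2
      exact ⟨u, (mem_cn G v u).2 h1, rfl⟩
  by_cases hc : (closedNbhd G v).card < Δ + 1
  · rw [if_pos hc]
    have hnot : (v, !s) ∉ (closedNbhd G v).map f := by
      rw [hf]
      rintro ⟨_, h⟩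
      cases s <;> simp at h
    have h : closedNbhd (dbl G Δ) (v, s) = ((closedNbhd G v).map f).cons (v, !s) hnot := by
      ext ⟨u, t⟩
      rw [mem_cn, dbl_adj, mem_cons, hf, Prod.mk.injEq, Prod.mk.injEq]
      constructor
      · rintro (⟨h1, h2⟩ | ⟨h1, h2⟩ | ⟨h1, h2, h3⟩)
        · exact Or.inr ⟨Or.inl h1, h2⟩
        · exact Or.inr ⟨Or.inr h2, h1.symm⟩
        · refine Or.inl ⟨h2.symm, ?_⟩
          cases s <;> cases t <;> simp_all
      · rintro (⟨h1, h2⟩ | ⟨h1, h2⟩)
        · subst h1; subst h2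
          refine Or.inr (Or.inr ⟨?_, rfl, hc⟩)
          cases s <;> simp
        · subst h2
          rcases h1 with h1 | h1
          · exact Or.inl ⟨h1, rfl⟩
          · exact Or.inr (Or.inl ⟨rfl, h1⟩)
    rw [h, card_cons, card_map]
  · rw [if_neg hc]
    have h : closedNbhd (dbl G Δ) (v, s) = (closedNbhd G v).map f := by
      ext ⟨u, t⟩
      rw [mem_cn, dbl_adj, hf, Prod.mk.injEq]
      constructor
      · rintro (⟨h1, h2⟩ | ⟨h1, h2⟩ | ⟨h1, h2, h3⟩)
        · exact ⟨Or.inl h1, h2⟩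
        · exact ⟨Or.inr h2, h1.symm⟩
        · exact absurd h3 hc
      · rintro ⟨h1, h2⟩
        subst h2
        rcases h1 with h1 | h1
        · exact Or.inl ⟨h1, rfl⟩
        · exact Or.inr (Or.inl ⟨rfl, h1⟩)
    rw [h, card_map, Nat.add_zero]

lemma good_dbl {V : Type} [Fintype V] (G : SimpleGraph V) (p L Δ d : ℕ)
    (lam : V → Fin p ⊕ Fin p × Fin L) (h : Good G p L Δ d lam) (hd : d < Δ) :
    Good (dbl G Δ) p L Δ (d + 1) (fun x => lam x.1) := by
  have hadj : ∀ v a : V, ∀ s, (a = v ∨ G.Adj v a) →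
      (((a, s) : V × Bool) = (v, s) ∨ (dbl G Δ).Adj (v, s) (a, s)) := by
    intro v a s h
    rcases h with h | h
    · exact Or.inl (by rw [h])
    · exact Or.inr (Or.inl ⟨rfl, h⟩)
  refine ⟨?_, ?_, ?_, ?_, ?_⟩
  · rintro ⟨v, s⟩
    rw [dbl_card]
    have := h.le v
    split_ifs <;> omega
  · rintro ⟨v, s⟩
    rw [dbl_card]
    have := h.ge v
    split_ifs <;> omega
  · obtain ⟨v, hv⟩ := h.ex
    refine ⟨(v, true), ?_⟩
    rw [dbl_card, if_pos (by omega)]
    omega
  · rintro ⟨v, s⟩ i j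
    obtain ⟨a, b, hab, ha, hb, h1, h2⟩ := h.two v i j
    exact ⟨(a, s), (b, s), fun h => hab (Prod.mk.inj h).1, hadj v a s ha, hadj v b s hb, h1, h2⟩
  · intro i
    obtain ⟨w, hw, hl⟩ := h.spec i
    refine ⟨(w, true), ?_, ?_⟩
    · rw [dbl_card, if_neg (by omega)]
      omega
    · have hback : ∀ a : V × Bool, (a = (w, true) ∨ (dbl G Δ).Adj (w, true) a) →
          (a.1 = w ∨ G.Adj w a.1) ∧ a.2 = true := by
        rintro ⟨a, t⟩ ha
        rcases ha with ha | ha | ha
        · exact ⟨Or.inl (Prod.mk.inj ha).1, (Prod.mk.inj ha).2⟩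
        · exact ⟨Or.inr ha.2, ha.1.symm⟩
        · exact absurd ha.2.2 (by simp only; omega)
      intro l hll a b ha hb h1 h2
      have h3 := hback a ha
      have h4 := hback b hb
      exact Prod.ext (hl l hll a.1 b.1 h3.1 h4.1 h1 h2) (h3.2.trans h4.2.symm)

lemma good_iter (p L Δ d : ℕ) (n : ℕ) (h : ∃ (V : Type) (_ : Fintype V) (G : SimpleGraph V)
    (lam : V → Fin p ⊕ Fin p × Fin L), Good G p L Δ d lam) (hd : d + n ≤ Δ) :
    ∃ (V : Type) (_ : Fintype V) (G : SimpleGraph V)
      (lam : V → Fin p ⊕ Fin p × Fin L), Good G p L Δ (d + n) lam := by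
  induction n with
  | zero => exact h
  | succ n ih =>
    obtain ⟨V, _, G, lam, hG⟩ := ih (by omega)
    exact ⟨V × Bool, inferInstance, dbl G Δ, fun x => lam x.1,
      good_dbl G p L Δ (d + n) lam hG (by omega)⟩

/-- The names of the members of the partition. -/
abbrev Lab (p L : ℕ) := Fin p ⊕ Fin p × Fin L

/-- The vertices of the base graph: one outer vertex for every name and, for every outer vertex,
a block of `2 p` vertices. -/
abbrev V0 (p L : ℕ) := Lab p L ⊕ Lab p L × (Fin p × Bool)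

/-- One direction of the adjacency of the base graph. -/
def rel (p L : ℕ) : V0 p L → V0 p L → Prop
  | .inl (.inl i), .inl (.inr x) => x.1 = i
  | .inl (.inl i), .inr x => x.1 = .inl i ∧ x.2.1 ≠ i
  | .inl (.inr y), .inr x => x.1 = .inr y ∧ x.2 ≠ (y.1, true)
  | .inr x, .inr y => x.1 = y.1
  | _, _ => False

/-- The base graph. -/
def G0 (p L : ℕ) : SimpleGraph (V0 p L) := SimpleGraph.fromRel (rel p L)

/-- The labelling of the base graph. -/
def lam0 (p L : ℕ) : V0 p L → Fin p ⊕ Fin p × Fin L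
  | .inl o => o
  | .inr x => .inl x.2.1

lemma adj0 (p L : ℕ) (a b : V0 p L) :
    (G0 p L).Adj a b ↔ a ≠ b ∧ (rel p L a b ∨ rel p L b a) := SimpleGraph.fromRel_adj _ _ _

lemma cn_w (p L : ℕ) (i : Fin p) (u : V0 p L) :
    (u = .inl (.inl i) ∨ (G0 p L).Adj (.inl (.inl i)) u) ↔
      (u = .inl (.inl i) ∨ (∃ j, u = .inl (.inr (i, j))) ∨
        ∃ z : Fin p × Bool, z.1 ≠ i ∧ u = .inr (.inl i, z)) := by
  rw [adj0]
  rcases u with (k | ⟨k, l⟩) | ⟨o, z⟩
  · simp [rel]
  · simp only [rel, reduceCtorEq, ne_eq, not_false_eq_true, true_and, or_false, false_or,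
      Sum.inl.injEq, Sum.inr.injEq, Prod.mk.injEq, and_false, exists_false, false_and]
    constructor
    · rintro h; exact ⟨l, h, rfl⟩
    · rintro ⟨j, h, _⟩; exact h
  · simp only [rel, reduceCtorEq, ne_eq, not_false_eq_true, true_and, or_false, false_or,
      Sum.inl.injEq, Sum.inr.injEq, Prod.mk.injEq, exists_false]
    constructor
    · rintro ⟨h1, h2⟩
      exact ⟨z, h2, h1, rfl⟩
    · rintro ⟨z', h2, h1, h3⟩
      subst h3
      exact ⟨h1, h2⟩

lemma cn_c (p L : ℕ) (i : Fin p) (j : Fin L) (u : V0 p L) :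
    (u = .inl (.inr (i, j)) ∨ (G0 p L).Adj (.inl (.inr (i, j))) u) ↔
      (u = .inl (.inr (i, j)) ∨ u = .inl (.inl i) ∨
        ∃ z : Fin p × Bool, z ≠ (i, true) ∧ u = .inr (.inr (i, j), z)) := by
  rw [adj0]
  rcases u with (k | ⟨k, l⟩) | ⟨o, z⟩
  · simp only [rel, reduceCtorEq, ne_eq, not_false_eq_true, true_and, or_false, false_or,
      Sum.inl.injEq, Sum.inr.injEq, Prod.mk.injEq, and_false, exists_false, false_and]
    exact eq_comm
  · simp [rel]
  · simp only [rel, reduceCtorEq, ne_eq, not_false_eq_true, true_and, or_false, false_or,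
      Sum.inl.injEq, Sum.inr.injEq, Prod.mk.injEq, exists_false]
    constructor
    · rintro ⟨h1, h2⟩
      exact ⟨z, h2, h1, rfl⟩
    · rintro ⟨z', h2, h1, h3⟩
      subst h3
      exact ⟨h1, h2⟩

lemma cn_y1 (p L : ℕ) (o : Lab p L) (z z' : Fin p × Bool) :
    (.inr (o, z') : V0 p L) = .inr (o, z) ∨ (G0 p L).Adj (.inr (o, z)) (.inr (o, z')) := by
  rw [adj0]
  by_cases h : z = z'
  · left; rw [h]
  · right
    refine ⟨?_, Or.inl rfl⟩
    intro h'
    exact h (Prod.mk.inj (Sum.inr_injective h')).2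

lemma cn_y2 (p L : ℕ) (o : Lab p L) (z : Fin p × Bool) (u : V0 p L)
    (h : u = .inr (o, z) ∨ (G0 p L).Adj (.inr (o, z)) u) :
    (u = .inl o ∧ (∀ i, o = .inl i → z.1 ≠ i)) ∨ ∃ z', u = .inr (o, z') := by
  rw [adj0] at h
  rcases h with h | ⟨_, h | h⟩
  · exact Or.inr ⟨z, h⟩
  · rcases u with u | ⟨o', z'⟩
    · simp [rel] at h
    · simp only [rel] at h
      subst h
      exact Or.inr ⟨z', rfl⟩
  · rcases u with (k | ⟨k, l⟩) | ⟨o', z'⟩
    · simp only [rel] at h
      left
      refine ⟨by rw [h.1], ?_⟩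
      intro i hi
      rw [h.1] at hi
      rw [← Sum.inl_injective hi]
      exact h.2
    · simp only [rel] at h
      left
      refine ⟨by rw [h.1], ?_⟩
      intro i hi
      rw [h.1] at hi
      cases hi
    · simp only [rel] at h
      subst h
      exact Or.inr ⟨z', rfl⟩

lemma card_w (p L : ℕ) (i : Fin p) :
    (closedNbhd (G0 p L) (.inl (.inl i))).card = (L + 1) + (p - 1) * 2 := by
  let f : Option (Fin L) ⊕ (Fin p × Bool) → V0 p L := fun x => match x with
    | .inl none => .inl (.inl i)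
    | .inl (some j) => .inl (.inr (i, j))
    | .inr z => .inr (.inl i, z)
  have hf : Function.Injective f := by
    rintro ((_ | a) | a) ((_ | b) | b) h <;> simp [f] at h ⊢
    · exact h
    · exact h
  have h : closedNbhd (G0 p L) (.inl (.inl i)) =
      ((univ : Finset (Option (Fin L))).disjSum ((univ.erase i) ×ˢ (univ : Finset Bool))).map
        ⟨f, hf⟩ := by
    ext u
    rw [mem_cn, cn_w, mem_map]
    constructor
    · rintro (h | ⟨j, h⟩ | ⟨z, hz, h⟩)
      · exact ⟨.inl none, by simp, h.symm⟩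
      · exact ⟨.inl (some j), by simp, h.symm⟩
      · exact ⟨.inr z, by simp [hz], h.symm⟩
    · rintro ⟨(_ | a) | a, h1, h2⟩
      · exact Or.inl h2.symm
      · exact Or.inr (Or.inl ⟨a, h2.symm⟩)
      · refine Or.inr (Or.inr ⟨a, ?_, h2.symm⟩)
        simp at h1
        exact h1
  rw [h, card_map, card_disjSum, card_product, card_erase_of_mem (mem_univ i)]
  simp

lemma card_c (p L : ℕ) (i : Fin p) (j : Fin L) :
    (closedNbhd (G0 p L) (.inl (.inr (i, j)))).card = 2 + (p * 2 - 1) := by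
  let f : Bool ⊕ (Fin p × Bool) → V0 p L := fun x => match x with
    | .inl true => .inl (.inl i)
    | .inl false => .inl (.inr (i, j))
    | .inr z => .inr (.inr (i, j), z)
  have hf : Function.Injective f := by
    rintro ((_ | _) | a) ((_ | _) | b) h <;> simp [f] at h ⊢
    exact h
  have h : closedNbhd (G0 p L) (.inl (.inr (i, j))) =
      ((univ : Finset Bool).disjSum ((univ : Finset (Fin p × Bool)).erase (i, true))).map
        ⟨f, hf⟩ := by
    ext u
    rw [mem_cn, cn_c, mem_map]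
    constructor
    · rintro (h | h | ⟨z, hz, h⟩)
      · exact ⟨.inl false, by simp, h.symm⟩
      · exact ⟨.inl true, by simp, h.symm⟩
      · exact ⟨.inr z, by simp [hz], h.symm⟩
    · rintro ⟨(_ | _) | a, h1, h2⟩
      · exact Or.inl h2.symm
      · exact Or.inr (Or.inl h2.symm)
      · refine Or.inr (Or.inr ⟨a, ?_, h2.symm⟩)
        simp at h1
        exact h1
  rw [h, card_map, card_disjSum, card_erase_of_mem (mem_univ _)]
  simp

lemma card_y1 (p L : ℕ) (o : Lab p L) (z : Fin p × Bool) :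
    p * 2 ≤ (closedNbhd (G0 p L) (.inr (o, z))).card := by
  have h : (univ : Finset (Fin p × Bool)).map
      ⟨fun z' => (.inr (o, z') : V0 p L), fun a b h => (Prod.mk.inj (Sum.inr_injective h)).2⟩ ⊆
      closedNbhd (G0 p L) (.inr (o, z)) := by
    intro u hu
    rw [mem_map] at hu
    obtain ⟨z', _, rfl⟩ := hu
    rw [mem_cn]
    exact cn_y1 p L o z z'
  have := card_le_card h
  simpa using this

lemma card_y2 (p L : ℕ) (o : Lab p L) (z : Fin p × Bool) :
    (closedNbhd (G0 p L) (.inr (o, z))).card ≤ p * 2 + 1 := by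
  let f : Option (Fin p × Bool) → V0 p L := fun x => match x with
    | none => .inl o
    | some z => .inr (o, z)
  have hf : Function.Injective f := by
    rintro (_ | a) (_ | b) h <;> simp [f] at h ⊢
    exact h
  have h : closedNbhd (G0 p L) (.inr (o, z)) ⊆
      (univ : Finset (Option (Fin p × Bool))).map ⟨f, hf⟩ := by
    intro u hu
    rw [mem_cn] at hu
    rw [mem_map]
    rcases cn_y2 p L o z u hu with ⟨h, _⟩ | ⟨z', h⟩
    · exact ⟨none, mem_univ _, h.symm⟩
    · exact ⟨some z', mem_univ _, h.symm⟩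
  have := card_le_card h
  simpa using this

lemma card_y3 (p L : ℕ) (i : Fin p) (s : Bool) :
    (closedNbhd (G0 p L) (.inr (.inl i, (i, s)))).card ≤ p * 2 := by
  have h : closedNbhd (G0 p L) (.inr (.inl i, (i, s))) ⊆ (univ : Finset (Fin p × Bool)).map
      ⟨fun z' => (.inr (.inl i, z') : V0 p L),
        fun a b h => (Prod.mk.inj (Sum.inr_injective h)).2⟩ := by
    intro u hu
    rw [mem_cn] at hu
    rw [mem_map]
    rcases cn_y2 p L _ _ u hu with ⟨_, h⟩ | ⟨z', h⟩
    · exact absurd rfl (h i rfl)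
    · exact ⟨z', mem_univ _, h.symm⟩
  have := card_le_card h
  simpa using this

/-- The base graph has all the required properties. -/
lemma good_base (p L Δ : ℕ) (hp : 1 ≤ p) (hL : L + 2 * p = Δ + 2) (hL1 : 1 ≤ L)
    (hp2 : 2 * p ≤ Δ) : Good (G0 p L) p L Δ (2 * p - 1) (lam0 p L) := by
  refine ⟨?_, ?_, ?_, ?_, ?_⟩
  · rintro ((i | ⟨i, j⟩) | ⟨o, z⟩)
    · rw [card_w]; omega
    · rw [card_c]; omega
    · have := card_y2 p L o z; omega
  · rintro ((i | ⟨i, j⟩) | ⟨o, z⟩)
    · rw [card_w]; omega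
    · rw [card_c]; omega
    · have := card_y1 p L o z; omega
  · refine ⟨.inr (.inl ⟨0, hp⟩, (⟨0, hp⟩, true)), ?_⟩
    have h1 := card_y1 p L (.inl ⟨0, hp⟩) (⟨0, hp⟩, true)
    have h2 := card_y3 p L ⟨0, hp⟩ true
    omega
  · rintro ((k | ⟨k, l⟩) | ⟨o, z⟩) i j
    · by_cases hik : i = k
      · subst hik
        refine ⟨.inl (.inl i), .inl (.inr (i, j)), by simp, ?_, ?_, Or.inl rfl, Or.inr rfl⟩
        · rw [cn_w]; exact Or.inl rfl
        · rw [cn_w]; exact Or.inr (Or.inl ⟨j, rfl⟩)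
      · refine ⟨.inr (.inl k, (i, false)), .inr (.inl k, (i, true)), by simp, ?_, ?_,
          Or.inl rfl, Or.inl rfl⟩
        · rw [cn_w]; exact Or.inr (Or.inr ⟨_, hik, rfl⟩)
        · rw [cn_w]; exact Or.inr (Or.inr ⟨_, hik, rfl⟩)
    · by_cases hik : i = k
      · subst hik
        refine ⟨.inl (.inl i), .inr (.inr (i, l), (i, false)), by simp, ?_, ?_,
          Or.inl rfl, Or.inl rfl⟩
        · rw [cn_c]; exact Or.inr (Or.inl rfl)
        · rw [cn_c]; exact Or.inr (Or.inr ⟨_, by simp, rfl⟩)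
      · refine ⟨.inr (.inr (k, l), (i, false)), .inr (.inr (k, l), (i, true)), by simp, ?_, ?_,
          Or.inl rfl, Or.inl rfl⟩
        · rw [cn_c]; exact Or.inr (Or.inr ⟨_, by simp, rfl⟩)
        · rw [cn_c]; exact Or.inr (Or.inr ⟨_, by simp [hik], rfl⟩)
    · exact ⟨.inr (o, (i, false)), .inr (o, (i, true)), by simp, cn_y1 p L o z _,
        cn_y1 p L o z _, Or.inl rfl, Or.inl rfl⟩
  · intro i
    refine ⟨.inl (.inl i), ?_, ?_⟩
    · rw [card_w]; omega
    · -- every label of the star of `i` occurs only once around the vertex `i`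
      have key : ∀ a, (a = .inl (.inl i) ∨ (G0 p L).Adj (.inl (.inl i)) a) →
          (lam0 p L a = .inl i ∨ ∃ j, lam0 p L a = .inr (i, j)) → a = .inl (lam0 p L a) := by
        intro a ha hl
        rw [cn_w] at ha
        rcases ha with h | ⟨j, h⟩ | ⟨z, hz, h⟩
        · subst h; rfl
        · subst h; rfl
        · subst h
          exfalso
          rcases hl with h | ⟨j, h⟩
          · exact hz (Sum.inl_injective h)
          · cases h
      intro l hl a b ha hb h1 h2
      have hl' : ∀ c, lam0 p L c = l → (lam0 p L c = .inl i ∨ ∃ j, lam0 p L c = .inr (i, j)) := by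
        intro c hc
        rw [hc]
        exact hl
      rw [key a ha (hl' a h1), key b hb (hl' b h2), h1, h2]

lemma good_one : Good (⊤ : SimpleGraph Bool) 1 1 1 1
    (fun x => if x then .inl 0 else .inr (0, 0)) := by
  have hc : ∀ v : Bool, (closedNbhd (⊤ : SimpleGraph Bool) v).card = 2 := by
    intro v
    have h : closedNbhd (⊤ : SimpleGraph Bool) v = univ := by
      ext u
      rw [mem_cn]
      simp only [mem_univ, iff_true, SimpleGraph.top_adj]
      by_cases h : u = v
      · exact Or.inl h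
      · exact Or.inr (fun h' => h h'.symm)
    rw [h]
    rfl
  refine ⟨fun v => (hc v).le, fun v => (hc v).ge, ⟨true, hc true⟩, ?_, ?_⟩
  · intro v i j
    refine ⟨true, false, by simp, ?_, ?_, ?_, ?_⟩
    · cases v <;> simp
    · cases v <;> simp
    · left; simp [Subsingleton.elim i 0]
    · right; simp [Subsingleton.elim i 0, Subsingleton.elim j 0]
  · intro i
    refine ⟨true, hc true, ?_⟩
    intro l _ a b _ _ h1 h2
    rw [← h2] at h1
    cases a <;> cases b <;> simp at h1 ⊢

/-- From the working description to double coalition partitions. -/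
lemma good_final {V : Type} [Fintype V] (G : SimpleGraph V) (p L Δ d : ℕ)
    (lam : V → Fin p ⊕ Fin p × Fin L) (hp : 1 ≤ p) (hL : 1 ≤ L) (h : Good G p L Δ d lam) :
    G.minDegree = d ∧ G.maxDegree = Δ ∧
      ∃ P : Finpartition (univ : Finset V), IsDCPartition G P ∧ P.parts.card = p * (L + 1) := by
  have hdeg : ∀ v, (closedNbhd G v).card = G.degree v + 1 := closedNbhd_card G
  obtain ⟨v0, hv0⟩ := h.ex
  haveI : Nonempty V := ⟨v0⟩
  refine ⟨?_, ?_, ?_⟩
  · apply le_antisymm
    · have h1 := G.minDegree_le_degree v0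
      rw [hdeg] at hv0
      omega
    · apply G.le_minDegree_of_forall_le_degree
      intro v
      have h1 := h.ge v
      rw [hdeg] at h1
      omega
  · apply le_antisymm
    · apply G.maxDegree_le_of_forall_degree_le
      intro v
      have h1 := h.le v
      rw [hdeg] at h1
      omega
    · obtain ⟨w, hw, _⟩ := h.spec ⟨0, hp⟩
      have h1 := G.degree_le_maxDegree w
      rw [hdeg] at hw
      omega
  · let fb : Fin p ⊕ Fin p × Fin L → Finset V := fun l => univ.filter (fun v => lam v = l)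
    have hfb : ∀ l v, v ∈ fb l ↔ lam v = l := by
      intro l v
      simp [fb]
    -- all labels occur
    have hsurj : ∀ i j, (∃ v, lam v = .inl i) ∧ ∃ v, lam v = .inr (i, j) := by
      intro i j
      obtain ⟨w, _, hw⟩ := h.spec i
      obtain ⟨a, b, hab, ha, hb, h1, h2⟩ := h.two w i j
      rcases h1 with h1 | h1 <;> rcases h2 with h2 | h2
      · exact absurd (hw _ (Or.inl rfl) a b ha hb h1 h2) hab
      · exact ⟨⟨a, h1⟩, ⟨b, h2⟩⟩
      · exact ⟨⟨b, h2⟩, ⟨a, h1⟩⟩
      · exact absurd (hw _ (Or.inr ⟨j, rfl⟩) a b ha hb h1 h2) hab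
    have hsurj' : ∀ l, ∃ v, lam v = l := by
      rintro (i | ⟨i, j⟩)
      · exact (hsurj i ⟨0, hL⟩).1
      · exact (hsurj i j).2
    have hinj : Function.Injective fb := by
      intro l l' hll
      obtain ⟨v, hv⟩ := hsurj' l
      have h1 : v ∈ fb l := (hfb l v).2 hv
      rw [hll, hfb] at h1
      rw [← hv, h1]
    have hdis : ∀ l l', l ≠ l' → Disjoint (fb l) (fb l') := by
      intro l l' hll
      rw [disjoint_left]
      intro v h1 h2
      rw [hfb] at h1 h2
      exact hll (h1.symm.trans h2)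
    have hnot : ∀ i l, (l = .inl i ∨ ∃ j, l = .inr (i, j)) → ¬ DoubleDominating G (fb l) := by
      intro i l hl hd
      obtain ⟨w, _, hw⟩ := h.spec i
      obtain ⟨a, b, hab, ha, hb, h1, h2⟩ := (two_le_iff G w _).1 (hd w)
      rw [hfb] at h1 h2
      exact hab (hw l hl a b ha hb h1 h2)
    have hdc : ∀ i j, DoubleCoalition G (fb (.inl i)) (fb (.inr (i, j))) := by
      intro i j
      refine ⟨hdis _ _ (by simp), hnot i _ (Or.inl rfl), hnot i _ (Or.inr ⟨j, rfl⟩), ?_⟩
      intro v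
      rw [two_le_iff]
      obtain ⟨a, b, hab, ha, hb, h1, h2⟩ := h.two v i j
      refine ⟨a, b, hab, ha, hb, ?_, ?_⟩
      · rw [mem_union, hfb, hfb]; exact h1
      · rw [mem_union, hfb, hfb]; exact h2
    let P : Finpartition (univ : Finset V) := Finpartition.ofExistsUnique
      (univ.image fb) (fun _ _ => subset_univ _)
      (by
        intro v _
        refine ⟨fb (lam v), ⟨mem_image_of_mem _ (mem_univ _), (hfb _ _).2 rfl⟩, ?_⟩
        rintro A ⟨hA, hvA⟩
        obtain ⟨l, _, rfl⟩ := mem_image.1 hA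
        rw [(hfb l v).1 hvA])
      (by
        intro he
        obtain ⟨l, _, hl⟩ := mem_image.1 he
        obtain ⟨v, hv⟩ := hsurj' l
        have h1 : v ∈ fb l := (hfb l v).2 hv
        rw [hl] at h1
        exact notMem_empty _ h1)
    have hP : P.parts = univ.image fb := rfl
    refine ⟨P, ?_, ?_⟩
    · intro A hA
      rw [hP] at hA ⊢
      obtain ⟨l, _, rfl⟩ := mem_image.1 hA
      rcases l with i | ⟨i, j⟩
      · refine ⟨fb (.inr (i, ⟨0, hL⟩)), mem_image_of_mem _ (mem_univ _), ?_, hdc i _⟩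
        intro h1
        have := hinj h1
        cases this
      · refine ⟨fb (.inl i), mem_image_of_mem _ (mem_univ _), ?_, ?_⟩
        · intro h1
          have := hinj h1
          cases this
        · have h1 := hdc i j
          exact ⟨h1.1.symm, h1.2.2.1, h1.2.1, by rw [union_comm]; exact h1.2.2.2⟩
    · rw [hP, card_image_of_injective _ hinj]
      simp
      ring

end Lower

lemma dc_le (δ Δ : ℕ) (h1 : 1 ≤ δ) (h2 : δ ≤ Δ) {V : Type} [Fintype V] (G : SimpleGraph V)
    (hδ : G.minDegree = δ) (hΔ : G.maxDegree = Δ) (P : Finpartition (univ : Finset V))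
    (hP : IsDCPartition G P) : P.parts.card ≤ pstar δ Δ * (Δ + 3 - 2 * pstar δ Δ) := by
  haveI : Nonempty V := by
    by_contra h
    rw [not_nonempty_iff] at h
    have : G.minDegree = 0 := G.minDegree_of_isEmpty
    omega
  obtain ⟨p, hp1, hp2, hp3⟩ := upper G P hP
  rw [hδ] at hp2
  rw [hΔ] at hp3
  exact hp3.trans (arith δ Δ p h2 hp1 hp2)

/-- **The exact value.** For all `1 ≤ δ ≤ Δ` the largest double coalition number of a graph with
minimum degree `δ` and maximum degree `Δ` is `p (Δ + 3 - 2 p)`, where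
`p = min ⌈δ/2⌉ ⌊(Δ+4)/4⌋`. -/
theorem result (δ Δ : ℕ) (h1 : 1 ≤ δ) (h2 : δ ≤ Δ) :
    IsGreatest (dcValues δ Δ) (pstar δ Δ * (Δ + 3 - 2 * pstar δ Δ)) := by
  constructor
  · have hp0 : pstar δ Δ ≤ (δ + 1) / 2 := min_le_left _ _
    have hp0' : pstar δ Δ ≤ (Δ + 4) / 4 := min_le_right _ _
    have hp1 : 1 ≤ pstar δ Δ := le_min (by omega) (by omega)
    obtain ⟨L, hL⟩ : ∃ L, L + 2 * pstar δ Δ = Δ + 2 := ⟨Δ + 2 - 2 * pstar δ Δ, by omega⟩
    have hex : ∃ (V : Type) (_ : Fintype V) (G : SimpleGraph V)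
        (lam : V → Fin (pstar δ Δ) ⊕ Fin (pstar δ Δ) × Fin L), Good G (pstar δ Δ) L Δ δ lam := by
      by_cases hΔ : Δ = 1
      · have hδ : δ = 1 := by omega
        subst hδ; subst hΔ
        have hps : pstar 1 1 = 1 := rfl
        rw [hps] at hL ⊢
        have hL1 : L = 1 := by omega
        subst hL1
        exact ⟨Bool, inferInstance, ⊤, _, good_one⟩
      · have := good_iter (pstar δ Δ) L Δ (2 * pstar δ Δ - 1) (δ - (2 * pstar δ Δ - 1))
          ⟨_, inferInstance, _, _, good_base (pstar δ Δ) L Δ hp1 hL (by omega) (by omega)⟩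
          (by omega)
        have he : 2 * pstar δ Δ - 1 + (δ - (2 * pstar δ Δ - 1)) = δ := by omega
        rw [he] at this
        exact this
    obtain ⟨V, _, G, lam, hG⟩ := hex
    obtain ⟨g1, g2, P, hP, hPc⟩ := good_final G _ L Δ δ lam hp1 (by omega) hG
    refine ⟨V, inferInstance, G, g1, g2, ?_⟩
    have hval : pstar δ Δ * (Δ + 3 - 2 * pstar δ Δ) = pstar δ Δ * (L + 1) := by
      congr 1
      omega
    apply IsGreatest.csSup_eq
    refine ⟨⟨P, hP, by rw [hPc, hval]⟩, ?_⟩
    rintro k ⟨Q, hQ, rfl⟩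
    exact dc_le δ Δ h1 h2 G g1 g2 Q hQ
  · rintro k ⟨V, _, G, g1, g2, rfl⟩
    apply csSup_le'
    rintro k ⟨Q, hQ, rfl⟩
    exact dc_le δ Δ h1 h2 G g1 g2 Q hQ

end Pool.Agent.Results.MP_00dc5c_co.ExactValue
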